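import Pool.Agent.W994.AR.Final

/-!
# The Bodirsky-Pinsker dichotomy holds for almost all templates

For every homogeneous structure 𝔹 in a finite relational signature and every finite family Γ of
Aut(𝔹)-invariant relations, all but a doubly exponentially small proportion of the Aut(𝔹)-invariant
relations R of arity k (k large) make (B; Γ, R) either a template with a constant endomorphism or
a template which pp-defines every relation that is first-order definable in 𝔹.
-/

namespace Pool.Agent.Results.MP_6ab439_lc.AlmostAllReducts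

open Pool.Agent.W994.AR

theorem result {B σ ι : Type} [Nontrivial B] [Finite σ] [Finite ι] {arB : σ → ℕ} {arΓ : ι → ℕ}
    (𝔹 : Str σ arB B) (h𝔹 : Homogeneous 𝔹) (Γ : Str ι arΓ B)
    (hΓ : ∀ l, Invar (autGroup 𝔹) (Γ l)) :
    -- there are finitely many invariant relations of each arity
    (∀ n, Finite (InvRel (autGroup 𝔹) (Fin n))) ∧
    -- the templates are reducts of homogeneous, finitely bounded structures
    (∀ (t : ℕ) (k : Fin t → ℕ) (R : ∀ j, InvRel (autGroup 𝔹) (Fin (k j))),
      Homogeneous (expand 𝔹 (expand Γ (fun j => (R j).1))) ∧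
      (FinitelyBounded 𝔹 → FinitelyBounded (expand 𝔹 (expand Γ (fun j => (R j).1))))) ∧
    -- templates with a constant endomorphism are trivial
    (∀ (t : ℕ) (k : Fin t → ℕ) (R : ∀ j, InvRel (autGroup 𝔹) (Fin (k j))),
      ConstEndo (expand Γ (fun j => (R j).1)) →
        ¬ PPConstructsK3 (expand Γ (fun j => (R j).1)) ∧
        ∀ (X : Type) (𝕏 : Str (ι ⊕ Fin t) (Sum.elim arΓ k) X),
          (∃ f : X → B, ∀ i, ∀ v ∈ 𝕏 i, (fun j => f (v j)) ∈ expand Γ (fun j => (R j).1) i) ↔
            ∀ i, (𝕏 i).Nonempty → (expand Γ (fun j => (R j).1) i).Nonempty) ∧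
    -- all but a tiny proportion of the other templates are as hard as possible
    ∃ C c δ : ℝ, 0 < C ∧ 0 < c ∧ 0 < δ ∧
      (∀ (t : ℕ) (k : Fin t → ℕ) (m : ℕ), 1 ≤ t → (∀ j, m ≤ k j) →
        (Nat.card {R : ∀ j, InvRel (autGroup 𝔹) (Fin (k j)) //
          ¬ (ConstEndo (expand Γ (fun j => (R j).1)) ∨
              PPMax (autGroup 𝔹) (expand Γ (fun j => (R j).1)))} : ℝ) ≤
          t * C * Real.exp (-(δ * Real.exp (c * m))) *
            Nat.card (∀ j, InvRel (autGroup 𝔹) (Fin (k j)))) ∧
      (∀ n : ℕ, 1 ≤ n →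
        ((2⁻¹ : ℝ) ^ constOrbits (autGroup 𝔹) Γ - C * Real.exp (-(δ * Real.exp (c * n)))) *
            Nat.card (InvRel (autGroup 𝔹) (Fin n)) ≤
          Nat.card {R : InvRel (autGroup 𝔹) (Fin n) //
            PPConstructsK3 (expand Γ (τ := Fin 1) (k := fun _ => n) (fun _ => R.1))} ∧
        (Nat.card {R : InvRel (autGroup 𝔹) (Fin n) //
            PPConstructsK3 (expand Γ (τ := Fin 1) (k := fun _ => n) (fun _ => R.1))} : ℝ) ≤
          (2⁻¹ : ℝ) ^ constOrbits (autGroup 𝔹) Γ * Nat.card (InvRel (autGroup 𝔹) (Fin n))) := by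
  classical
  have hfin : ∀ k, Finite (Orb (autGroup 𝔹) (Fin k)) := fun k => hom_finite h𝔹 (Fin k)
  have hfinI : ∀ k, Finite (InvRel (autGroup 𝔹) (Fin k)) := fun k => by
    have := hfin k
    exact finite_inv _ _
  refine ⟨hfinI, ?_, ?_, ?_⟩
  · intro t k R
    have hinv : ∀ j, Invar (autGroup 𝔹) (expand Γ (fun j => (R j).1) j) := by
      rintro (l | j)
      · exact hΓ l
      · exact (R j).2
    exact ⟨homogeneous_expand h𝔹 _ hinv, fun h => finitelyBounded_expand h𝔹 h _ hinv⟩
  · intro t k R h
    exact ⟨not_k3_of_const h, fun X 𝕏 => const_csp h X 𝕏⟩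
  · obtain ⟨C, c, δ, hC, hc, hδ, hbd⟩ := rich_bound_many (autGroup 𝔹) (dim arB arΓ) (dim_pos _ _) hfin
    refine ⟨C, c, δ, hC, hc, hδ, ?_, ?_⟩
    · intro t k m ht hm
      have h1 := hbd t k m hm
      refine le_trans ?_ h1
      have : Finite (∀ j, InvRel (autGroup 𝔹) (Fin (k j))) := inferInstance
      have h2 : Nat.card {R : ∀ j, InvRel (autGroup 𝔹) (Fin (k j)) //
          ¬ (ConstEndo (expand Γ (fun j => (R j).1)) ∨
              PPMax (autGroup 𝔹) (expand Γ (fun j => (R j).1)))} ≤
          Nat.card {R : ∀ j, InvRel (autGroup 𝔹) (Fin (k j)) //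
            ¬ ∀ j, Rich (autGroup 𝔹) (Fin (dim arB arΓ)) (R j).1} := by
        apply Nat.card_le_card_of_injective (fun R => ⟨R.1, fun h => R.2 (by
          by_cases hcst : ConstEndo (expand Γ (fun j => (R.1 j).1))
          · exact Or.inl hcst
          · exact Or.inr (max_of_rich 𝔹 h𝔹 Γ hΓ ht R.1 h hcst))⟩)
        intro R R' h
        exact Subtype.ext (congrArg (fun x => x.1) h)
      exact_mod_cast h2
    · intro n hn
      have := hfin n
      have hcount := const_count (G := autGroup 𝔹) Γ n hn
      set Z := {R : InvRel (autGroup 𝔹) (Fin n) //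
        ∀ b, (∀ l, (Γ l).Nonempty → (fun _ => b) ∈ Γ l) → (fun _ => b) ∉ R.1} with hZ
      have hcountr : (Nat.card Z : ℝ) =
          (2⁻¹ : ℝ) ^ constOrbits (autGroup 𝔹) Γ * Nat.card (InvRel (autGroup 𝔹) (Fin n)) := by
        rw [← hcount]
        push_cast
        rw [inv_pow]
        field_simp
      constructor
      · -- lower bound
        have h1 := hbd 1 (fun _ => n) n (fun _ => le_refl n)
        have h2 : (Nat.card (∀ _ : Fin 1, InvRel (autGroup 𝔹) (Fin n)) : ℝ) =
            Nat.card (InvRel (autGroup 𝔹) (Fin n)) := by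
          rw [Nat.card_congr (Equiv.funUnique (Fin 1) _)]
        rw [h2] at h1
        have h3 : Nat.card Z ≤ Nat.card {R : InvRel (autGroup 𝔹) (Fin n) //
            PPConstructsK3 (expand Γ (τ := Fin 1) (k := fun _ => n) (fun _ => R.1))} +
            Nat.card {R : ∀ _ : Fin 1, InvRel (autGroup 𝔹) (Fin n) //
              ¬ ∀ j, Rich (autGroup 𝔹) (Fin (dim arB arΓ)) (R j).1} := by
          rw [← Nat.card_sum]
          let F : Z → {R : InvRel (autGroup 𝔹) (Fin n) //
            PPConstructsK3 (expand Γ (τ := Fin 1) (k := fun _ => n) (fun _ => R.1))} ⊕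
            {R : ∀ _ : Fin 1, InvRel (autGroup 𝔹) (Fin n) //
              ¬ ∀ j, Rich (autGroup 𝔹) (Fin (dim arB arΓ)) (R j).1} := fun R =>
            if h : PPConstructsK3 (expand Γ (τ := Fin 1) (k := fun _ => n) (fun _ => R.1.1)) then
              Sum.inl ⟨R.1, h⟩
            else Sum.inr ⟨fun _ => R.1, fun hrich => h (by
              have hcst : ¬ ConstEndo (expand Γ (τ := Fin 1) (k := fun _ => n) (fun _ => R.1.1)) := by
                rintro ⟨b, hb⟩
                refine R.2 b ?_ ?_
                · rintro l ⟨v, hv⟩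
                  exact hb (Sum.inl l) v hv
                · obtain ⟨v, hv⟩ := rich_nonempty (dim_ge arB arΓ) (hrich 0)
                  exact hb (Sum.inr 0) v hv
              exact (max_of_rich 𝔹 h𝔹 Γ hΓ (t := 1) Nat.one_pos (k := fun _ => n) (fun _ => R.1)
                hrich hcst).1)⟩
          apply Nat.card_le_card_of_injective F
          intro R R' h
          simp only [F] at h
          split_ifs at h with h4 h5 h5
          · simp only [Sum.inl.injEq, Subtype.mk.injEq] at h
            exact Subtype.ext h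
          · simp only [Sum.inr.injEq, Subtype.mk.injEq] at h
            exact Subtype.ext (congrFun h 0)
        have h4 : (Nat.card Z : ℝ) ≤ Nat.card {R : InvRel (autGroup 𝔹) (Fin n) //
            PPConstructsK3 (expand Γ (τ := Fin 1) (k := fun _ => n) (fun _ => R.1))} +
            Nat.card {R : ∀ _ : Fin 1, InvRel (autGroup 𝔹) (Fin n) //
              ¬ ∀ j, Rich (autGroup 𝔹) (Fin (dim arB arΓ)) (R j).1} := by exact_mod_cast h3
        rw [hcountr] at h4
        push_cast at h1
        rw [one_mul] at h1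
        rw [sub_mul]
        linarith
      · -- upper bound
        rw [← hcountr]
        have h1 : Nat.card {R : InvRel (autGroup 𝔹) (Fin n) //
            PPConstructsK3 (expand Γ (τ := Fin 1) (k := fun _ => n) (fun _ => R.1))} ≤
            Nat.card Z := by
          apply Nat.card_le_card_of_injective (fun R => (⟨R.1, fun b hb hR => by
            refine not_k3_of_const ⟨b, ?_⟩ R.2
            rintro (l | j) v hv
            · exact hb l ⟨v, hv⟩
            · exact hR⟩ : Z))
          intro R R' h
          exact Subtype.ext (congrArg (fun x => x.1) h)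
        exact_mod_cast h1

end Pool.Agent.Results.MP_6ab439_lc.AlmostAllReducts
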